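import Pool.Agent.Lib.MP_da95b5_lc.Cover

/-!
For all fixed `k ≥ 2`, `v ≥ 2`, the problem `k`-Partition`(v)` is NP-hard on interval graphs that
are unions of at most `(v + 1) ^ k + 26 v` cliques.
-/

namespace Pool.Agent.Results.MP_da95b5_lc.NPHardFewCliques

open Pool.Agent.Lib.MP_da95b5_lc N68a2faeb

theorem result (k v : ℕ) (hk : 2 ≤ k) (hv : 2 ≤ v) :
    ∀ L ∈ NP, ∃ f : List Bool → List (List ℕ), IsPolyTime f ∧ ∀ x,
      (IsIntervalGraph (graphOf (f x)) ∧ (graphOf (f x))ᶜ.Colorable ((v + 1) ^ k + 26 * v)) ∧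
        (L x = true ↔ HasPartition k v (graphOf (f x))) :=
  hard_graph_cover hk hv

end Pool.Agent.Results.MP_da95b5_lc.NPHardFewCliques
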